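import Pool.Agent.W973.SRR.Defs

/-!
The four kinds of agents (part SRR-KIND).
-/

set_option autoImplicit false

namespace Pool.Agent.W607.SRR

open Pool.Agent.W973.SRR Pool.Agent.NPC

theorem kind : S_KIND := by
  intro m a ha
  unfold aV aW aP aQ
  have h8 : a / 8 < m := by omega
  have hr : a % 8 = 0 ∨ a % 8 = 1 ∨ (2 ≤ a % 8 ∧ a % 2 = 0) ∨ (2 ≤ a % 8 ∧ a % 2 = 1) := by omega
  rcases hr with h | h | ⟨h, h2⟩ | ⟨h, h2⟩
  · exact Or.inl ⟨a / 8, h8, by omega⟩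
  · exact Or.inr (Or.inl ⟨a / 8, h8, by omega⟩)
  · refine Or.inr (Or.inr (Or.inl ⟨3 * (a / 8) + (a % 8 / 2 - 1), by omega, ?_⟩))
    omega
  · refine Or.inr (Or.inr (Or.inr ⟨3 * (a / 8) + (a % 8 / 2 - 1), by omega, ?_⟩))
    omega

end Pool.Agent.W607.SRR
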